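import Pool.Agent.H525.EX.Stm

set_option autoImplicit false

namespace Pool.Agent.H345.EX

open Pool.Agent.H525.EX

/-- value `a` and derivative `b` at `1` of the Laurent polynomial with coefficients `f` -/
def HS (f : ℤ → ℝ) (a b : ℝ) : Prop := HasSum f a ∧ HasSum (fun e : ℤ => (e : ℝ) * f e) b

lemma HS.shift {f : ℤ → ℝ} {a b : ℝ} (h : HS f a b) (j : ℤ) :
    HS (fun e => f (e - j)) a (b + j * a) := by
  constructor
  · have := (Equiv.hasSum_iff (f := f) (a := a) (Equiv.subRight j)).2 h.1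
    exact this
  · have h1 : HasSum (fun e : ℤ => ((e : ℝ) + j) * f e) (b + j * a) := by
      have h2 := h.2.add (h.1.mul_left (j : ℝ))
      have h3 : (fun e : ℤ => ((e : ℝ) + j) * f e) = fun e : ℤ => (e : ℝ) * f e + j * f e := by
        funext e; ring
      rw [h3]; exact h2
    have h4 := (Equiv.hasSum_iff (f := fun e : ℤ => ((e : ℝ) + j) * f e) (a := b + j * a)
      (Equiv.subRight j)).2 h1
    have h5 : (fun e : ℤ => ((e : ℝ) + j) * f e) ∘ (Equiv.subRight j) =
        fun e : ℤ => (e : ℝ) * f (e - j) := by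
      funext e
      simp only [Function.comp, Equiv.subRight_apply]
      push_cast; ring
    rw [h5] at h4
    exact h4

lemma HS.add {f g : ℤ → ℝ} {a b c d : ℝ} (h : HS f a b) (h' : HS g c d) :
    HS (fun e => f e + g e) (a + c) (b + d) := by
  refine ⟨h.1.add h'.1, ?_⟩
  have := h.2.add h'.2
  simpa only [mul_add] using this

lemma HS.sub {f g : ℤ → ℝ} {a b c d : ℝ} (h : HS f a b) (h' : HS g c d) :
    HS (fun e => f e - g e) (a - c) (b - d) := by
  refine ⟨h.1.sub h'.1, ?_⟩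
  have := h.2.sub h'.2
  simpa only [mul_sub] using this

lemma HS.smul {f : ℤ → ℝ} {a b : ℝ} (h : HS f a b) (c : ℝ) :
    HS (fun e => c * f e) (c * a) (c * b) := by
  refine ⟨h.1.mul_left c, ?_⟩
  have h3 : (fun e : ℤ => (e : ℝ) * (c * f e)) = fun e : ℤ => c * ((e : ℝ) * f e) := by
    funext e; ring
  show HasSum (fun e : ℤ => (e : ℝ) * (c * f e)) (c * b)
  rw [h3]; exact h.2.mul_left c

lemma HS.unique {f g : ℤ → ℝ} {a b c d : ℝ} (h : HS f a b) (h' : HS g c d)
    (hfg : ∀ e, f e = g e) : a = c ∧ b = d := by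
  have : f = g := funext hfg
  subst this
  exact ⟨h.1.unique h'.1, h.2.unique h'.2⟩

lemma HS_of_support {f : ℤ → ℝ} (s : Finset ℤ) (h : ∀ e, e ∉ s → f e = 0) :
    HS f (∑ e ∈ s, f e) (∑ e ∈ s, (e : ℝ) * f e) :=
  ⟨hasSum_sum_of_ne_finset_zero h, hasSum_sum_of_ne_finset_zero fun e he => by
    rw [h e he, mul_zero]⟩

lemma HS.reflect {f : ℤ → ℝ} {a b : ℝ} (h : HS f a b) (j : ℤ) :
    HasSum (fun e => f (j - e)) a := by
  have := (Equiv.hasSum_iff (f := f) (a := a) (Equiv.subLeft j)).2 h.1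
  exact this

/-- the rows of `u` -/
lemma HS_u {s : ℕ} {ε P : ℝ} {u v : Arr} (hp : Pre s ε P u v) (hε : ε = 1 ∨ ε = -1) (n : ℤ) :
    ∃ b, HS (u n) (sm u n) b := by
  have hε0 : ε ^ n ≠ 0 := by
    rcases hε with h | h <;> rw [h] <;> exact zpow_ne_zero _ (by norm_num)
  refine ⟨_, HS_of_support (Finset.Icc (-n) (3 * n + 1)) fun e he => ?_⟩
  simp only [Finset.mem_Icc, not_and_or, not_le] at he
  rcases he with he | he
  · exact hp.us n e he
  · have h1 := hp.ua n e
    rw [hp.us n (2 * n - e) (by linarith)] at h1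
    rcases mul_eq_zero.1 h1.symm with h2 | h2
    · exact absurd h2 hε0
    · exact h2

/-- the rows of `v` -/
lemma HS_v {s : ℕ} {ε P : ℝ} {u v : Arr} (hp : Pre s ε P u v) (hε : ε = 1 ∨ ε = -1) (n : ℤ) :
    HS (v n) (sm v n) (-dv v n) := by
  have hε0 : ε ^ n ≠ 0 := by
    rcases hε with h | h <;> rw [h] <;> exact zpow_ne_zero _ (by norm_num)
  have h := HS_of_support (f := v n) (Finset.Icc (-n) (3 * n + 1)) fun e he => by
    simp only [Finset.mem_Icc, not_and_or, not_le] at he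
    rcases he with he | he
    · exact hp.vs n e he
    · have h1 := hp.va n e
      rw [hp.vs n (2 * n + 1 - e) (by linarith)] at h1
      rcases mul_eq_zero.1 (neg_eq_zero.1 h1.symm) with h2 | h2
      · exact absurd h2 hε0
      · exact h2
  have h2 : -dv v n = ∑ e ∈ Finset.Icc (-n) (3 * n + 1), (e : ℝ) * v n e := by
    unfold dv; ring
  rw [h2]
  exact h

/-- `h1 (X, 1) = 0` for `ε = 1` -/
lemma sm_v {s : ℕ} {P : ℝ} {u v : Arr} (hp : Pre s 1 P u v) (n : ℤ) : sm v n = 0 := by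
  have h := HS_v hp (Or.inl rfl) n
  have h1 := h.reflect (2 * n + 1)
  have h2 : (fun e => v n (2 * n + 1 - e)) = fun e => -(v n e) := by
    funext e
    have := hp.va n e
    rw [this]; simp
  rw [h2] at h1
  have h3 := h1.unique h.1.neg
  linarith

theorem t_d1 : S_d1 := by
  intro s P u v u' v' hs hs' hR n
  have hu : ∀ m : ℤ, ∃ b, HS (u m) (if m = 0 then 1 else 0) b := fun m => by
    obtain ⟨b, hb⟩ := HS_u hs.pre (Or.inl rfl) m
    rw [hs.N m] at hb
    exact ⟨b, hb⟩
  have hv : ∀ m : ℤ, HS (v m) 0 (-dv v m) := fun m => by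
    have := HS_v hs.pre (Or.inl rfl) m
    rwa [sm_v hs.pre m] at this
  have hv' : ∀ m : ℤ, HS (v' m) 0 (-dv v' m) := fun m => by
    have := HS_v hs'.pre (Or.inl rfl) m
    rwa [sm_v hs'.pre m] at this
  obtain ⟨b1, hb1⟩ := hu n
  obtain ⟨b2, hb2⟩ := hu (n - (2 * s + 1))
  have L := (((hv' (n - (2 * s + 2))).shift (2 * s + 2)).sub
    (((hv' (n - (4 * s + 3))).shift (4 * s + 3)).smul P)).smul P
  have R := ((hb1.sub (hb1.shift 1)).add (((hb2.shift (2 * s + 1)).sub
    (hb2.shift (2 * s + 2))).smul P)).sub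
    ((((hv n).sub (((hv (n - (2 * s + 1))).shift (2 * s)).smul P)).add
      (((hv (n - (2 * s + 1))).shift (2 * s + 1)).smul P)).sub
      (((hv (n - (2 * s + 1))).shift (2 * s + 2)).smul P))
  have key := (L.unique R (fun e => hR n e)).2
  have e1 : (if n - (2 * (s : ℤ) + 1) = 0 then (1 : ℝ) else 0) =
      if n = 2 * (s : ℤ) + 1 then 1 else 0 := by
    simp only [sub_eq_zero]
  have e2 : (if n = 2 * (s : ℤ) + 1 then P else 0) =
      P * if n = 2 * (s : ℤ) + 1 then (1 : ℝ) else 0 := by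
    split_ifs <;> simp
  rw [e1] at key
  rw [e2]
  push_cast at key
  linarith

end Pool.Agent.H345.EX
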