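import Pool.Agent.H525.EX.Stm4
import Pool.Agent.H525.EX.EV44

set_option autoImplicit false

namespace Pool.Agent.H345.EX

open Polynomial UniqueFactorizationMonoid
open Pool.Agent.H525.EX
open Pool.Agent.H525.EX.EV44
open scoped Classical

theorem t_ev2 : S_ev2 := by
  intro K _ _ h hv
  constructor
  · intro P a hP hirr ha
    have h1 : normalizedFactors ((P ^ a) ^ 2) = Multiset.replicate (2 * a) P := by
      have h2 : normalizedFactors P = {P} := by
        rw [normalizedFactors_irreducible hirr, hP.normalize_eq_self]
      rw [normalizedFactors_pow, normalizedFactors_pow, h2, Multiset.nsmul_singleton,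
        Multiset.nsmul_replicate]
    rw [ev_der, h1]
    have h3 : (Multiset.replicate (2 * a) P).toFinset = {P} := by
      rw [Multiset.toFinset_replicate, if_neg (by omega)]
    rw [h3, Finset.sum_singleton, Multiset.count_replicate_self]
    simp
  · intro G hG hne
    rw [ev_der]
    refine Finset.sum_eq_zero fun P hP => ?_
    have hnf : normalizedFactors (G ^ 2) = 2 • normalizedFactors G := normalizedFactors_pow 2
    have hmem : ∀ Q, Q ∈ normalizedFactors G → Q ∈ normalizedFactors (G ^ 2) := fun Q hQ => by
      rw [hnf, two_nsmul]; exact Multiset.mem_add.2 (Or.inl hQ)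
    have hPG : P ∈ normalizedFactors G := by
      have h1 := Multiset.mem_toFinset.1 hP
      rw [hnf, two_nsmul] at h1
      rcases Multiset.mem_add.1 h1 with h2 | h2 <;> exact h2
    have hex : ∃ Q ∈ (normalizedFactors (G ^ 2)).toFinset, Q ≠ P := by
      by_contra hno
      push Not at hno
      have hallG : ∀ Q ∈ normalizedFactors G, Q = P := fun Q hQ =>
        hno Q (Multiset.mem_toFinset.2 (hmem Q hQ))
      have hrG := Multiset.eq_replicate_card.2 hallG
      have hGP : G = P ^ (Multiset.card (normalizedFactors G)) := by
        have h2 := ev_prod hG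
        rw [hrG, Multiset.prod_replicate] at h2
        exact h2.symm
      have hcard : 0 < Multiset.card (normalizedFactors G) :=
        Multiset.card_pos_iff_exists_mem.2 ⟨P, hPG⟩
      exact hne P _ (ev_nf_monic hPG) (irreducible_of_normalized_factor P hPG) hcard hGP
    obtain ⟨Q, hQ, hQP⟩ := hex
    have h5 : ∏ Q ∈ (normalizedFactors (G ^ 2)).toFinset.erase P,
        (expand ℝ Q.natDegree (h Q ((normalizedFactors (G ^ 2)).count Q))).eval 1 = 0 :=
      Finset.prod_eq_zero (Finset.mem_erase.2 ⟨hQP, hQ⟩) (ev_val h hv _ Q hQ)
    rw [h5, zero_mul]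

end Pool.Agent.H345.EX
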