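import Mathlib
import Pool.Agent.H525.EX.Stm5

/-!
# GD21: the derivative at `1` of the sum of all weights of the first kind (helper345 for helper525,
adapted from `Pool/Agent/H627/EX/GD.lean`)
-/

namespace Pool.Agent.H345.EX.GD21

open Polynomial UniqueFactorizationMonoid
open Pool.Agent.H985.Chow (mob)
open Pool.Agent.H525.QF
open Pool.Agent.H525.EX
open scoped Classical

lemma der_eval (p : ℝ[X]) (N : ℕ) (hN : p.natDegree < N) :
    (derivative p).eval 1 = ∑ k ∈ Finset.range N, (k : ℝ) * p.coeff k := by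
  rw [derivative_eval, Polynomial.sum_over_range' p (by simp) N hN]
  refine Finset.sum_congr rfl fun k _ => ?_
  rw [one_pow, mul_one, mul_comm]

section

variable {K : Type} [Field K] [Fintype K]

lemma F_mon {m : ℕ} {v : K[X] × K[X]} (h1 : v.1 ∈ lt K (m + 1)) (h2 : v.2 ∈ mon K m) :
    (F2 v).Monic ∧ (F2 v).natDegree = 4 * m + 2 := by
  rw [mem_lt] at h1
  rw [mem_mon] at h2
  obtain ⟨hm, hd⟩ := h2
  have hXX : (X ^ 2 + X : K[X]).Monic ∧ (X ^ 2 + X : K[X]).natDegree = 2 := by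
    have hlt : (X : K[X]).degree < (X ^ 2 : K[X]).degree := by
      rw [degree_X_pow, degree_X]
      exact_mod_cast one_lt_two
    refine ⟨(monic_X_pow 2).add_of_left hlt, ?_⟩
    rw [natDegree_add_eq_left_of_degree_lt hlt, natDegree_X_pow]
  have hX : ((X ^ 2 + X) * v.2 ^ 4).Monic := hXX.1.mul (hm.pow 4)
  have hXd : ((X ^ 2 + X) * v.2 ^ 4).natDegree = 4 * m + 2 := by
    rw [hXX.1.natDegree_mul (hm.pow 4), hXX.2, hm.natDegree_pow, hd]
    ring
  have hlt : (v.1 ^ 4).degree < ((X ^ 2 + X) * v.2 ^ 4).degree := by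
    rw [degree_eq_natDegree hX.ne_zero, hXd]
    rcases eq_or_ne v.1 0 with h0 | h0
    · rw [h0, zero_pow (by norm_num), degree_zero]
      exact WithBot.bot_lt_coe _
    · rw [degree_eq_natDegree (pow_ne_zero 4 h0), natDegree_pow]
      rw [degree_eq_natDegree h0] at h1
      have h3 : v.1.natDegree < m + 1 := by exact_mod_cast h1
      have h4 : 4 * v.1.natDegree < 4 * m + 2 := by omega
      exact_mod_cast h4
  unfold F2
  exact ⟨hX.add_of_right hlt, by rw [natDegree_add_eq_right_of_degree_lt hlt, hXd]⟩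

omit [Fintype K] in
lemma cop_of_irr {v : K[X] × K[X]} (h : Irreducible (F2 v)) : IsCoprime v.1 v.2 := by
  rw [← EuclideanDomain.gcd_isUnit_iff]
  set g := EuclideanDomain.gcd v.1 v.2 with hg
  have h1 : g ∣ v.1 := EuclideanDomain.gcd_dvd_left _ _
  have h2 : g ∣ v.2 := EuclideanDomain.gcd_dvd_right _ _
  refine h.squarefree g ?_
  unfold F2
  have h3 : g * g ∣ v.1 ^ 4 := by
    refine (mul_dvd_mul h1 h1).trans ⟨v.1 ^ 2, by ring⟩
  have h4 : g * g ∣ (X ^ 2 + X) * v.2 ^ 4 := by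
    refine (mul_dvd_mul h2 h2).trans ⟨(X ^ 2 + X) * v.2 ^ 2, by ring⟩
  exact dvd_add h3 h4

lemma pri_eq (m : ℕ) : (pi1 K m : ℝ) = ((cI K m).filter (fun v => Irreducible (F2 v))).card := by
  unfold pi1 cI
  congr 1
  congr 1
  ext v
  simp only [Finset.mem_filter]
  constructor
  · rintro ⟨h1, h2⟩
    exact ⟨⟨h1, cop_of_irr h2⟩, h2⟩
  · rintro ⟨⟨h1, _⟩, h2⟩
    exact ⟨h1, h2⟩

lemma arith {m j n : ℕ} (hm : m + j = n) (hd : (2 * m + 1) ∣ (2 * n + 1))
    (h4 : (2 * n + 1) / (2 * m + 1) % 4 = 1) :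
    j = (4 * m + 2) * (((2 * n + 1) / (2 * m + 1) - 1) / 4) := by
  obtain ⟨c, hc⟩ := hd
  have h1 : (2 * n + 1) / (2 * m + 1) = c := by
    rw [hc]
    exact Nat.mul_div_cancel_left c (by omega)
  rw [h1] at h4 ⊢
  obtain ⟨a, ha⟩ : ∃ a, c = 4 * a + 1 := ⟨c / 4, by omega⟩
  have h6 : (c - 1) / 4 = a := by omega
  rw [h6]
  subst hm
  subst ha
  have h7 : 2 * j = 2 * ((4 * m + 2) * a) := by
    have h8 : (2 * m + 1) * (4 * a + 1) = 2 * ((4 * m + 2) * a) + (2 * m + 1) := by ring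
    omega
  omega

lemma arith2 {m j n a : ℕ} (hm : m + j = n) (hj : j = a * (4 * m + 2)) :
    (2 * m + 1) ∣ (2 * n + 1) ∧ (2 * n + 1) / (2 * m + 1) % 4 = 1 := by
  have h1 : 2 * n + 1 = (2 * m + 1) * (4 * a + 1) := by
    rw [← hm, hj]
    ring
  refine ⟨⟨4 * a + 1, h1⟩, ?_⟩
  rw [h1, Nat.mul_div_cancel_left _ (by omega)]
  omega

end

end Pool.Agent.H345.EX.GD21

namespace Pool.Agent.H345.EX

open Polynomial UniqueFactorizationMonoid
open Pool.Agent.H985.Chow (mob)
open Pool.Agent.H525.QF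
open Pool.Agent.H525.EX
open Pool.Agent.H345.EX.GD21
open scoped Classical

theorem t_gd21 : S_gd21 := by
  intro hR hE hP K _ _ _ κ hκ h ρ hHR hHV hρ n
  have step1 : ∑ k ∈ Finset.range (4 * n + 3), (k : ℝ) * G1 (fun _ => 1) h n k =
      ∑ j ∈ Finset.range (n + 1), ∑ G ∈ mon K j, ∑ v ∈ cI K (n - j),
        (derivative (W h (G ^ 2 * F2 v))).eval 1 := by
    unfold G1
    simp only [Finset.mul_sum, one_mul]
    rw [Finset.sum_comm]
    refine Finset.sum_congr rfl fun j hj => ?_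
    rw [Finset.sum_comm]
    refine Finset.sum_congr rfl fun G hG => ?_
    rw [Finset.sum_comm]
    refine Finset.sum_congr rfl fun v hv => ?_
    rw [der_eval _ (4 * n + 3) ?_]
    unfold cI at hv
    rw [Finset.mem_filter, Finset.mem_product] at hv
    obtain ⟨⟨hv1, hv2⟩, hv3⟩ := hv
    have hF := F_mon hv1 hv2
    have hsq := ((hP K κ hκ (n - j) v hv3).1 hv1 hv2).1
    rw [mem_mon] at hG
    have h1 := (hR K _ h hHR G (F2 v) hG.1 hF.1 hsq).1
    rw [hG.2, hF.2] at h1
    rw [Finset.mem_range] at hj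
    omega
  rw [step1, ← Finset.sum_flip (fun m => if (2 * m + 1) ∣ (2 * n + 1) ∧
        (2 * n + 1) / (2 * m + 1) % 4 = 1 then
        (pi1 K m : ℝ) * (4 * m + 2) * ρ (4 * m + 2) (((2 * n + 1) / (2 * m + 1) - 1) / 4) else 0)]
  refine Finset.sum_congr rfl fun j hj => ?_
  rw [Finset.mem_range] at hj
  obtain ⟨m, hm⟩ : ∃ m, n - j = m := ⟨_, rfl⟩
  have hmj : m + j = n := by omega
  rw [hm, Finset.sum_comm]
  have key : ∀ v ∈ cI K m, ∑ G ∈ mon K j, (derivative (W h (G ^ 2 * F2 v))).eval 1 =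
      if Irreducible (F2 v) then (if (2 * m + 1) ∣ (2 * n + 1) ∧
        (2 * n + 1) / (2 * m + 1) % 4 = 1 then
        ((4 * m + 2 : ℕ) : ℝ) * ρ (4 * m + 2) (((2 * n + 1) / (2 * m + 1) - 1) / 4) else 0)
        else 0 := by
    intro v hv
    unfold cI at hv
    rw [Finset.mem_filter, Finset.mem_product] at hv
    obtain ⟨⟨hv1, hv2⟩, hv3⟩ := hv
    have hF := F_mon hv1 hv2
    have hsq := ((hP K κ hκ m v hv3).1 hv1 hv2).1
    have hF1 : F2 v ≠ 1 := by
      intro h0
      have h1 := hF.2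
      rw [h0, natDegree_one] at h1
      omega
    have hEV := fun G (hG : G.Monic) => (hE K h hHV).2 G (F2 v) hG hF.1 hsq hF1
    by_cases hirr : Irreducible (F2 v)
    · rw [if_pos hirr]
      by_cases hd : (2 * m + 1) ∣ (2 * n + 1) ∧ (2 * n + 1) / (2 * m + 1) % 4 = 1
      · rw [if_pos hd]
        have hj2 := arith hmj hd.1 hd.2
        set a0 := ((2 * n + 1) / (2 * m + 1) - 1) / 4 with ha0
        have hmem : (F2 v) ^ a0 ∈ mon K j := by
          rw [mem_mon]
          refine ⟨hF.1.pow _, ?_⟩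
          rw [hF.1.natDegree_pow, hF.2, hj2, mul_comm]
        rw [Finset.sum_eq_single_of_mem _ hmem]
        · rw [(hEV _ (hF.1.pow _)).1 a0 hirr rfl, hρ, hF.2]
        · intro G hG hne
          rw [mem_mon] at hG
          refine (hEV G hG.1).2 (Or.inr fun a ha => hne ?_)
          have h1 : a * (4 * m + 2) = (4 * m + 2) * a0 := by
            rw [← hj2, ← hG.2, ha, hF.1.natDegree_pow, hF.2]
          have h2 : a = a0 := by
            have h3 : (4 * m + 2) * a = (4 * m + 2) * a0 := by rw [mul_comm, h1]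
            exact Nat.eq_of_mul_eq_mul_left (by omega) h3
          rw [ha, h2]
      · rw [if_neg hd]
        refine Finset.sum_eq_zero fun G hG => ?_
        rw [mem_mon] at hG
        refine (hEV G hG.1).2 (Or.inr fun a ha => hd ?_)
        have h1 : j = a * (4 * m + 2) := by
          rw [← hG.2, ha, hF.1.natDegree_pow, hF.2]
        exact arith2 hmj h1
    · rw [if_neg hirr]
      refine Finset.sum_eq_zero fun G hG => ?_
      rw [mem_mon] at hG
      exact (hEV G hG.1).2 (Or.inl hirr)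
  rw [Finset.sum_congr rfl key, ← Finset.sum_filter, Finset.sum_const, nsmul_eq_mul, ← pri_eq]
  split_ifs with hd
  · push_cast
    ring
  · rw [mul_zero]

end Pool.Agent.H345.EX
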